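import Mathlib

set_option autoImplicit false

namespace H912Tw

open MvPolynomial

/-- `F` is given by a complex polynomial of degree at most `D`. -/
def IP (D : ℕ) (F : (Fin 2 → ℤ) → ℂ) : Prop :=
  ∃ P : MvPolynomial (Fin 2) ℂ, P.totalDegree ≤ D ∧
    ∀ x : Fin 2 → ℤ, MvPolynomial.eval (fun i => ((x i : ℤ) : ℂ)) P = F x

lemma IP.mono {D D' : ℕ} {F : (Fin 2 → ℤ) → ℂ} (h : IP D F) (hD : D ≤ D') : IP D' F := by
  obtain ⟨P, h1, h2⟩ := h
  exact ⟨P, h1.trans hD, h2⟩

lemma IP.const (c : ℂ) : IP 0 (fun _ => c) :=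
  ⟨C c, (totalDegree_C _).le, by intro x; simp⟩

lemma IP.lin (a b c : ℂ) : IP 1 (fun x => a * (x 0 : ℂ) + b * (x 1 : ℂ) + c) := by
  refine ⟨C a * X 0 + C b * X 1 + C c, ?_, by intro x; simp⟩
  refine (totalDegree_add _ _).trans (max_le ((totalDegree_add _ _).trans (max_le ?_ ?_)) ?_)
  · exact (totalDegree_mul _ _).trans (by simp [totalDegree_X])
  · exact (totalDegree_mul _ _).trans (by simp [totalDegree_X])
  · simp [totalDegree_C]

lemma IP.mul {D E : ℕ} {F G : (Fin 2 → ℤ) → ℂ} (hF : IP D F) (hG : IP E G) :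
    IP (D + E) (fun x => F x * G x) := by
  obtain ⟨P, h1, h2⟩ := hF
  obtain ⟨Q, h3, h4⟩ := hG
  refine ⟨P * Q, (totalDegree_mul _ _).trans (add_le_add h1 h3), ?_⟩
  intro x
  simp [h2, h4]

/-- Three distinct points of a circle are not collinear. -/
lemma not_coll (n : ℤ) (s a b : Fin 2 → ℤ) (hs : ∑ i, s i ^ 2 = n) (ha : ∑ i, a i ^ 2 = n)
    (hb : ∑ i, b i ^ 2 = n) (h1 : a ≠ b) (h2 : a ≠ s) (h3 : b ≠ s) :
    (b 1 - a 1) * (s 0 - a 0) - (b 0 - a 0) * (s 1 - a 1) ≠ 0 := by
  intro h0
  rw [Fin.sum_univ_two] at hs ha hb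
  set u0 := b 0 - a 0 with hu0
  set u1 := b 1 - a 1 with hu1
  set v0 := s 0 - a 0 with hv0
  set v1 := s 1 - a 1 with hv1
  have eb : u0 * u0 + u1 * u1 = -2 * (a 0 * u0 + a 1 * u1) := by rw [hu0, hu1]; nlinarith
  have es : v0 * v0 + v1 * v1 = -2 * (a 0 * v0 + a 1 * v1) := by rw [hv0, hv1]; nlinarith
  have hcol : u1 * v0 = u0 * v1 := by linarith
  have hu : u0 * u0 + u1 * u1 ≠ 0 := by
    intro h
    have k0 : u0 = 0 := by nlinarith [mul_self_nonneg u0, mul_self_nonneg u1]
    have k1 : u1 = 0 := by nlinarith [mul_self_nonneg u0, mul_self_nonneg u1]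
    apply h1
    funext i
    fin_cases i
    · show a 0 = b 0
      linarith
    · show a 1 = b 1
      linarith
  -- |u|² v = (u·v) u
  set d := u0 * v0 + u1 * v1 with hd
  have e0 : (u0 * u0 + u1 * u1) * v0 = d * u0 := by
    rw [hd]
    have : u1 * u1 * v0 = u1 * (u0 * v1) := by rw [← hcol]; ring
    linear_combination this
  have e1 : (u0 * u0 + u1 * u1) * v1 = d * u1 := by
    rw [hd]
    have : u0 * (u0 * v1) = u0 * (u1 * v0) := by rw [hcol]
    linear_combination this
  -- |u|⁴ |v|² = d² |u|²,  |u|⁴ (a·v) = |u|² d (a·u)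
  have e2 : (u0 * u0 + u1 * u1) * ((u0 * u0 + u1 * u1) * d) =
      (u0 * u0 + u1 * u1) * (d * d) := by
    have g1 : (u0 * u0 + u1 * u1) * ((u0 * u0 + u1 * u1) * (v0 * v0 + v1 * v1)) =
        (u0 * u0 + u1 * u1) * (d * d) := by
      have : (u0 * u0 + u1 * u1) * ((u0 * u0 + u1 * u1) * (v0 * v0 + v1 * v1)) =
        ((u0 * u0 + u1 * u1) * v0) * ((u0 * u0 + u1 * u1) * v0) +
        ((u0 * u0 + u1 * u1) * v1) * ((u0 * u0 + u1 * u1) * v1) := by ring
      rw [this, e0, e1]; ring
    have g2 : (u0 * u0 + u1 * u1) * ((u0 * u0 + u1 * u1) * (v0 * v0 + v1 * v1)) =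
        (u0 * u0 + u1 * u1) * ((u0 * u0 + u1 * u1) * d) := by
      rw [es]
      have : (u0 * u0 + u1 * u1) * ((u0 * u0 + u1 * u1) * (-2 * (a 0 * v0 + a 1 * v1))) =
        (u0 * u0 + u1 * u1) * (-2 * (a 0 * ((u0 * u0 + u1 * u1) * v0) +
          a 1 * ((u0 * u0 + u1 * u1) * v1))) := by ring
      rw [this, e0, e1]
      have : (u0 * u0 + u1 * u1) * (-2 * (a 0 * (d * u0) + a 1 * (d * u1))) =
        (u0 * u0 + u1 * u1) * (d * (-2 * (a 0 * u0 + a 1 * u1))) := by ring
      rw [this, ← eb]; ring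
    rw [← g2, g1]
  have e3 := mul_left_cancel₀ hu e2
  have e4 : d * ((u0 * u0 + u1 * u1) - d) = 0 := by linear_combination e3
  rcases mul_eq_zero.mp e4 with hd0 | hd1
  · rw [hd0, zero_mul] at e0 e1
    have k0 := (mul_eq_zero.mp e0).resolve_left hu
    have k1 := (mul_eq_zero.mp e1).resolve_left hu
    apply h2
    funext i
    fin_cases i
    · show a 0 = s 0
      linarith
    · show a 1 = s 1
      linarith
  · have hd2 : d = u0 * u0 + u1 * u1 := by linarith
    rw [hd2] at e0 e1
    have k0 := mul_left_cancel₀ hu e0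
    have k1 := mul_left_cancel₀ hu e1
    apply h3
    funext i
    fin_cases i
    · show b 0 = s 0
      linarith
    · show b 1 = s 1
      linarith

lemma lines (n : ℤ) (s : Fin 2 → ℤ) (hs : ∑ i, s i ^ 2 = n) (N : ℕ) :
    ∀ T : Finset (Fin 2 → ℤ), T.card ≤ N → (∀ t ∈ T, ∑ i, t i ^ 2 = n ∧ t ≠ s) →
      ∃ F, IP ((T.card + 1) / 2) F ∧ (∀ t ∈ T, F t = 0) ∧ F s ≠ 0 := by
  classical
  induction N with
  | zero =>
    intro T hT _
    have : T = ∅ := Finset.card_eq_zero.mp (by omega)
    subst this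
    exact ⟨fun _ => 1, (IP.const 1).mono (by simp), by simp, one_ne_zero⟩
  | succ N ih =>
    intro T hT hTs
    rcases Nat.lt_or_ge T.card 2 with hc | hc
    · rcases Finset.eq_empty_or_nonempty T with he | ⟨t, ht⟩
      · subst he
        exact ⟨fun _ => 1, (IP.const 1).mono (by simp), by simp, one_ne_zero⟩
      · have hT1 : T.card = 1 := by
          have := Finset.card_pos.mpr ⟨t, ht⟩
          omega
        obtain ⟨t', ht'⟩ := Finset.card_eq_one.mp hT1
        have htt : t = t' := by rw [ht'] at ht; exact Finset.mem_singleton.mp ht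
        subst htt
        have hne := (hTs t ht).2
        rw [hT1]
        by_cases h0 : t 0 = s 0
        · refine ⟨_, (IP.lin 0 1 (-(t 1 : ℂ))), ?_, ?_⟩
          · intro x hx
            rw [ht', Finset.mem_singleton] at hx
            subst hx
            ring
          · intro h
            apply hne
            funext i
            fin_cases i
            · exact h0
            · show t 1 = s 1
              have h' : ((s 1 : ℤ) : ℂ) = ((t 1 : ℤ) : ℂ) := by linear_combination h
              exact (by exact_mod_cast h'.symm)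
        · refine ⟨_, (IP.lin 1 0 (-(t 0 : ℂ))), ?_, ?_⟩
          · intro x hx
            rw [ht', Finset.mem_singleton] at hx
            subst hx
            ring
          · intro h
            apply h0
            have h' : ((s 0 : ℤ) : ℂ) = ((t 0 : ℤ) : ℂ) := by linear_combination h
            exact (by exact_mod_cast h'.symm)
    · obtain ⟨a, b, ha, hb, hab⟩ := Finset.one_lt_card_iff.mp (show 1 < T.card by omega)
      have hbT : b ∈ T.erase a := Finset.mem_erase.mpr ⟨hab.symm, hb⟩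
      have hc2 : ((T.erase a).erase b).card = T.card - 2 := by
        rw [Finset.card_erase_of_mem hbT, Finset.card_erase_of_mem ha]
        omega
      obtain ⟨F, hF1, hF2, hF3⟩ := ih ((T.erase a).erase b) (by omega) (by
        intro t ht
        exact hTs t (Finset.mem_of_mem_erase (Finset.mem_of_mem_erase ht)))
      have hl := IP.lin ((b 1 : ℂ) - a 1) (-((b 0 : ℂ) - a 0))
        (-(((b 1 : ℂ) - a 1) * a 0) + ((b 0 : ℂ) - a 0) * a 1)
      refine ⟨_, (hl.mul hF1).mono ?_, ?_, ?_⟩
      · rw [hc2]; omega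
      · intro t ht
        by_cases hta : t = a
        · subst hta
          ring
        · by_cases htb : t = b
          · subst htb
            ring
          · rw [hF2 t (Finset.mem_erase.mpr ⟨htb, Finset.mem_erase.mpr ⟨hta, ht⟩⟩), mul_zero]
      · refine mul_ne_zero ?_ hF3
        have := not_coll n s a b hs (hTs a ha).1 (hTs b hb).1 hab (hTs a ha).2 (hTs b hb).2
        intro h
        apply this
        have h' : ((((b 1 - a 1) * (s 0 - a 0) - (b 0 - a 0) * (s 1 - a 1)) : ℤ) : ℂ) = 0 := by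
          push_cast
          linear_combination h
        exact_mod_cast h'

end H912Tw
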