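import Mathlib
import Pool.Agent.H912R3.Tw.B

set_option autoImplicit false

namespace H912Tw

open Complex

/-- The trigonometric sum with frequencies in `S` and coefficients `a`. -/
noncomputable def U (S : Finset (Fin 2 → ℤ)) (a : (Fin 2 → ℤ) → ℂ) : (Fin 2 → ℝ) → ℂ :=
  fun x => ∑ ξ ∈ S, a ξ * Complex.exp (2 * (Real.pi : ℂ) * Complex.I *
    ∑ i, ((ξ i : ℝ) : ℂ) * ((x i : ℝ) : ℂ))

/-- The linear form `2πi ξ·x`. -/
noncomputable def ell (ξ : Fin 2 → ℤ) : (Fin 2 → ℝ) →L[ℝ] ℂ :=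
  ∑ i, (2 * (Real.pi : ℂ) * Complex.I * ((ξ i : ℝ) : ℂ)) •
    (Complex.ofRealCLM.comp (ContinuousLinearMap.proj (R := ℝ) (φ := fun _ : Fin 2 => ℝ) i))

lemma ell_apply (ξ : Fin 2 → ℤ) (x : Fin 2 → ℝ) :
    ell ξ x = 2 * (Real.pi : ℂ) * Complex.I * ∑ i, ((ξ i : ℝ) : ℂ) * ((x i : ℝ) : ℂ) := by
  simp only [ell, _root_.sum_apply, _root_.smul_apply,
    ContinuousLinearMap.comp_apply, ContinuousLinearMap.proj_apply, Complex.ofRealCLM_apply,
    smul_eq_mul, Finset.mul_sum]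
  refine Finset.sum_congr rfl fun i _ => ?_
  ring

lemma U_eq (S : Finset (Fin 2 → ℤ)) (a : (Fin 2 → ℤ) → ℂ) :
    U S a = fun x => ∑ ξ ∈ S, a ξ * Complex.exp (ell ξ x) := by
  funext x
  simp only [U, ell_apply]

lemma U_contDiff (S : Finset (Fin 2 → ℤ)) (a : (Fin 2 → ℤ) → ℂ) :
    ContDiff ℝ (⊤ : ℕ∞) (U S a) := by
  rw [U_eq]
  refine ContDiff.sum fun ξ _ => ?_
  exact contDiff_const.mul (Complex.contDiff_exp.comp (ell ξ).contDiff)

lemma U_fderiv (S : Finset (Fin 2 → ℤ)) (a : (Fin 2 → ℤ) → ℂ) (i : Fin 2) (x : Fin 2 → ℝ) :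
    fderiv ℝ (U S a) x (Pi.single i 1) =
      U S (fun ξ => a ξ * (2 * (Real.pi : ℂ) * Complex.I * ((ξ i : ℤ) : ℂ))) x := by
  have h1 : HasFDerivAt (U S a) (∑ ξ ∈ S, a ξ • (Complex.exp (ell ξ x) • ell ξ)) x := by
    rw [U_eq]
    refine HasFDerivAt.fun_sum fun ξ _ => ?_
    have h2 : HasFDerivAt (fun y => Complex.exp (ell ξ y)) (Complex.exp (ell ξ x) • ell ξ) x :=
      (ell ξ).hasFDerivAt.cexp
    exact h2.const_mul (a ξ)
  rw [h1.fderiv, U_eq]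
  simp only [_root_.sum_apply, _root_.smul_apply, smul_eq_mul]
  refine Finset.sum_congr rfl fun ξ _ => ?_
  have h3 : ell ξ (Pi.single i 1) = 2 * (Real.pi : ℂ) * Complex.I * ((ξ i : ℤ) : ℂ) := by
    rw [ell_apply]
    congr 1
    rw [Finset.sum_eq_single i]
    · simp
    · intro j _ hj
      simp [Pi.single_eq_of_ne hj]
    · simp
  rw [h3]
  ring

/-- Vanishing to order `k` at `p`. -/
def Van (k : ℕ) (f : (Fin 2 → ℝ) → ℂ) (p : Fin 2 → ℝ) : Prop :=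
  ∀ j : ℕ, j < k → iteratedFDeriv ℝ j f p = 0

lemma Van.deriv {k : ℕ} {S : Finset (Fin 2 → ℤ)} {a : (Fin 2 → ℤ) → ℂ} {p : Fin 2 → ℝ}
    (h : Van (k + 1) (U S a) p) (i : Fin 2) :
    Van k (U S (fun ξ => a ξ * (2 * (Real.pi : ℂ) * Complex.I * ((ξ i : ℤ) : ℂ)))) p := by
  intro j hj
  have h1 : (U S (fun ξ => a ξ * (2 * (Real.pi : ℂ) * Complex.I * ((ξ i : ℤ) : ℂ)))) =
      (ContinuousLinearMap.apply ℝ ℂ (Pi.single i (1 : ℝ) : Fin 2 → ℝ)) ∘ fderiv ℝ (U S a) := by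
    funext x
    rw [Function.comp_apply, ContinuousLinearMap.apply_apply, U_fderiv]
  have h2 : ContDiff ℝ (j : ℕ∞) (fderiv ℝ (U S a)) :=
    ((U_contDiff S a).fderiv_right (m := (j : ℕ∞)) (by exact_mod_cast le_top))
  rw [h1, ContinuousLinearMap.iteratedFDeriv_comp_left _ (h2.contDiffAt) (le_refl _)]
  have h3 : iteratedFDeriv ℝ j (fderiv ℝ (U S a)) p = 0 := by
    rw [← norm_eq_zero, norm_iteratedFDeriv_fderiv, h (j + 1) (by omega), norm_zero]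
  rw [h3]
  ext m
  simp

lemma mono_kill {S : Finset (Fin 2 → ℤ)} {p : Fin 2 → ℝ} (N : ℕ) :
    ∀ (a : (Fin 2 → ℤ) → ℂ) (k : ℕ), Van k (U S a) p → ∀ i j : ℕ, i + j = N → N < k →
      ∑ ξ ∈ S, (a ξ * Complex.exp (ell ξ p)) *
        (((ξ 0 : ℤ) : ℂ) ^ i * ((ξ 1 : ℤ) : ℂ) ^ j) = 0 := by
  have hc : (2 * (Real.pi : ℂ) * Complex.I) ≠ 0 := by
    simp [Real.pi_ne_zero]
  induction N with
  | zero =>
    intro a k hk i j hijl hNk
    have hi : i = 0 := by omega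
    have hj : j = 0 := by omega
    subst hi hj
    have h0 := hk 0 hNk
    have h1 : U S a p = 0 := by
      have : ‖iteratedFDeriv ℝ 0 (U S a) p‖ = 0 := by rw [h0, norm_zero]
      rw [norm_iteratedFDeriv_zero] at this
      exact norm_eq_zero.mp this
    rw [U_eq] at h1
    simpa using h1
  | succ N ih =>
    intro a k hk i j hijl hNk
    obtain ⟨k', rfl⟩ : ∃ k', k = k' + 1 := ⟨k - 1, by omega⟩
    have key : ∀ (q : Fin 2) (i' j' : ℕ), i' + j' = N →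
        ∑ ξ ∈ S, (a ξ * Complex.exp (ell ξ p)) * (((ξ q : ℤ) : ℂ) *
        (((ξ 0 : ℤ) : ℂ) ^ i' * ((ξ 1 : ℤ) : ℂ) ^ j')) = 0 := by
      intro q i' j' h'
      have h1 := ih _ k' (hk.deriv q) i' j' h' (by omega)
      have h2 : ∑ ξ ∈ S, (a ξ * (2 * (Real.pi : ℂ) * Complex.I * ((ξ q : ℤ) : ℂ)) *
          Complex.exp (ell ξ p)) *
          (((ξ 0 : ℤ) : ℂ) ^ i' * ((ξ 1 : ℤ) : ℂ) ^ j') =
          (2 * (Real.pi : ℂ) * Complex.I) *
          ∑ ξ ∈ S, (a ξ * Complex.exp (ell ξ p)) * (((ξ q : ℤ) : ℂ) *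
        (((ξ 0 : ℤ) : ℂ) ^ i' * ((ξ 1 : ℤ) : ℂ) ^ j')) := by
        rw [Finset.mul_sum]
        refine Finset.sum_congr rfl fun ξ _ => ?_
        ring
      rw [h2] at h1
      exact (mul_eq_zero.mp h1).resolve_left hc
    rcases Nat.eq_zero_or_pos i with hi | hi
    · obtain ⟨j', rfl⟩ : ∃ j', j = j' + 1 := ⟨j - 1, by omega⟩
      rw [← key 1 i j' (by omega)]
      refine Finset.sum_congr rfl fun ξ _ => ?_
      ring
    · obtain ⟨i', rfl⟩ : ∃ i', i = i' + 1 := ⟨i - 1, by omega⟩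
      rw [← key 0 i' j (by omega)]
      refine Finset.sum_congr rfl fun ξ _ => ?_
      ring

lemma poly_kill {S : Finset (Fin 2 → ℤ)} {p : Fin 2 → ℝ} {a : (Fin 2 → ℤ) → ℂ} {k : ℕ}
    (hk : Van k (U S a) p) (F : (Fin 2 → ℤ) → ℂ) (D : ℕ) (hD : D < k) (hF : IP D F) :
    ∑ ξ ∈ S, (a ξ * Complex.exp (ell ξ p)) * F ξ = 0 := by
  obtain ⟨P, h1, h2⟩ := hF
  have h3 : ∀ ξ : Fin 2 → ℤ, F ξ = ∑ m ∈ P.support, P.coeff m *
      (((ξ 0 : ℤ) : ℂ) ^ m 0 * ((ξ 1 : ℤ) : ℂ) ^ m 1) := by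
    intro ξ
    rw [← h2 ξ, MvPolynomial.eval_eq']
    refine Finset.sum_congr rfl fun m _ => ?_
    rw [Fin.prod_univ_two]
  simp only [h3, Finset.mul_sum]
  rw [Finset.sum_comm]
  refine Finset.sum_eq_zero fun m hm => ?_
  have h4 : m 0 + m 1 < k := by
    have := MvPolynomial.le_totalDegree hm
    rw [Finsupp.sum_fintype _ _ (by simp), Fin.sum_univ_two] at this
    omega
  have h5 := mono_kill (S := S) (p := p) _ a k hk (m 0) (m 1) rfl h4
  have h6 : ∑ ξ ∈ S, (a ξ * Complex.exp (ell ξ p)) * (P.coeff m *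
      (((ξ 0 : ℤ) : ℂ) ^ m 0 * ((ξ 1 : ℤ) : ℂ) ^ m 1)) =
      P.coeff m * ∑ ξ ∈ S, (a ξ * Complex.exp (ell ξ p)) *
      (((ξ 0 : ℤ) : ℂ) ^ m 0 * ((ξ 1 : ℤ) : ℂ) ^ m 1) := by
    rw [Finset.mul_sum]
    refine Finset.sum_congr rfl fun ξ _ => ?_
    ring
  rw [h6, h5, mul_zero]

/-- Converse: vanishing moments give vanishing at the origin. -/
lemma van_of_moments {S : Finset (Fin 2 → ℤ)} (k : ℕ) :
    ∀ (a : (Fin 2 → ℤ) → ℂ), (∀ i j : ℕ, i + j < k →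
      ∑ ξ ∈ S, a ξ * (((ξ 0 : ℤ) : ℂ) ^ i * ((ξ 1 : ℤ) : ℂ) ^ j) = 0) →
      Van k (U S a) 0 := by
  induction k with
  | zero => intro a _ j hj; omega
  | succ k ih =>
    intro a ha j hj
    rcases Nat.eq_zero_or_pos j with h0 | h0
    · subst h0
      have h1 := ha 0 0 (by omega)
      have h2 : U S a 0 = 0 := by
        rw [U_eq]
        simpa using h1
      rw [← norm_eq_zero, norm_iteratedFDeriv_zero, h2, norm_zero]
    · obtain ⟨j', rfl⟩ : ∃ j', j = j' + 1 := ⟨j - 1, by omega⟩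
      let c : Fin 2 → (Fin 2 → ℤ) → ℂ := fun q ξ =>
        a ξ * (2 * (Real.pi : ℂ) * Complex.I * ((ξ q : ℤ) : ℂ))
      have hV : ∀ q, Van k (U S (c q)) 0 := by
        intro q
        apply ih
        intro i j hij
        have h1 : ∑ ξ ∈ S, a ξ * (((ξ 0 : ℤ) : ℂ) ^ i * ((ξ 1 : ℤ) : ℂ) ^ j *
            ((ξ q : ℤ) : ℂ)) = 0 := by
          fin_cases q
          · rw [← ha (i + 1) j (by omega)]
            refine Finset.sum_congr rfl fun ξ _ => ?_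
            simp only [Fin.zero_eta]
            ring
          · rw [← ha i (j + 1) (by omega)]
            refine Finset.sum_congr rfl fun ξ _ => ?_
            simp only [Fin.mk_one]
            ring
        have h2 : ∑ ξ ∈ S, c q ξ * (((ξ 0 : ℤ) : ℂ) ^ i * ((ξ 1 : ℤ) : ℂ) ^ j) =
            (2 * (Real.pi : ℂ) * Complex.I) *
            ∑ ξ ∈ S, a ξ * (((ξ 0 : ℤ) : ℂ) ^ i * ((ξ 1 : ℤ) : ℂ) ^ j * ((ξ q : ℤ) : ℂ)) := by
          rw [Finset.mul_sum]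
          refine Finset.sum_congr rfl fun ξ _ => ?_
          simp only [c]
          ring
        rw [h2, h1, mul_zero]
      let L : Fin 2 → (ℂ →L[ℝ] ((Fin 2 → ℝ) →L[ℝ] ℂ)) := fun q =>
        ContinuousLinearMap.smulRightL ℝ (Fin 2 → ℝ) ℂ
          (ContinuousLinearMap.proj (R := ℝ) (φ := fun _ : Fin 2 => ℝ) q)
      have hfd : fderiv ℝ (U S a) = (L 0 ∘ U S (c 0)) + (L 1 ∘ U S (c 1)) := by
        funext x
        refine ContinuousLinearMap.ext fun v => ?_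
        have hv : v = v 0 • (Pi.single 0 1 : Fin 2 → ℝ) + v 1 • (Pi.single 1 1 : Fin 2 → ℝ) := by
          funext i
          fin_cases i <;> simp
        conv_lhs => rw [hv]
        rw [map_add, map_smul, map_smul, U_fderiv, U_fderiv]
        simp [L, c]
      have hsm : ∀ q, ContDiffAt ℝ (j' : ℕ∞) (U S (c q)) 0 := fun q =>
        ((U_contDiff S (c q)).of_le (by exact_mod_cast le_top)).contDiffAt
      have hL : ∀ q, iteratedFDeriv ℝ j' (L q ∘ U S (c q)) 0 = 0 := by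
        intro q
        rw [ContinuousLinearMap.iteratedFDeriv_comp_left _ (hsm q) (le_refl _), hV q j' (by omega)]
        ext m
        simp
      have hLs : ∀ q, ContDiffAt ℝ (j' : ℕ∞) (L q ∘ U S (c q)) 0 := fun q =>
        (L q).contDiff.contDiffAt.comp _ (hsm q)
      rw [← norm_eq_zero, ← norm_iteratedFDeriv_fderiv, hfd,
        iteratedFDeriv_add_apply (hLs 0) (hLs 1), hL 0, hL 1, add_zero, norm_zero]

end H912Tw
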