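import Mathlib
import Pool.Agent.H912R3.Tw.A

set_option autoImplicit false

namespace H912Tw

theorem coeff_zero (n : ℕ) (S : Finset (Fin 2 → ℤ))
    (hS : ∀ x, x ∈ S ↔ ∑ i, x i ^ 2 = (n : ℤ)) (a : (Fin 2 → ℤ) → ℂ) (p0 : Fin 2 → ℝ) (k : ℕ)
    (hV : Van k (U S a) p0) (hk : S.card < 2 * k) : ∀ s ∈ S, a s = 0 := by
  classical
  intro s hs
  obtain ⟨F, h1, h2, h3⟩ := lines n s ((hS s).mp hs) (S.erase s).card (S.erase s) le_rfl
    (fun t ht => ⟨(hS t).mp (Finset.mem_of_mem_erase ht), Finset.ne_of_mem_erase ht⟩)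
  have hc := Finset.card_erase_of_mem hs
  have hpos := Finset.card_pos.mpr ⟨s, hs⟩
  have h4 := poly_kill hV F _ (by omega) h1
  rw [Finset.sum_eq_single s] at h4
  · have h5 := (mul_eq_zero.mp h4).resolve_right h3
    exact (mul_eq_zero.mp h5).resolve_right (Complex.exp_ne_zero _)
  · intro t ht hts
    rw [h2 t (Finset.mem_erase.mpr ⟨hts, ht⟩), mul_zero]
  · intro h
    exact absurd hs h

lemma exists_coeff (n : ℕ) (S : Finset (Fin 2 → ℤ))
    (hS : ∀ x, x ∈ S ↔ ∑ i, x i ^ 2 = (n : ℤ)) (k : ℕ) (hk : 2 * k ≤ S.card) (hS0 : S.Nonempty) :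
    ∃ a : (Fin 2 → ℤ) → ℂ, (∃ s ∈ S, a s ≠ 0) ∧ Van k (U S a) 0 := by
  classical
  let f1 : (S → ℂ) →ₗ[ℂ] (Fin k → ℂ) :=
      (LinearMap.pi fun i : Fin k => ∑ ξ : S, ((ξ.1 0 : ℤ) : ℂ) ^ (i : ℕ) • LinearMap.proj ξ)
  let f2 : (S → ℂ) →ₗ[ℂ] (Fin (k - 1) → ℂ) :=
      (LinearMap.pi fun i : Fin (k - 1) => ∑ ξ : S,
        (((ξ.1 0 : ℤ) : ℂ) ^ (i : ℕ) * ((ξ.1 1 : ℤ) : ℂ)) • LinearMap.proj ξ)
  let f : (S → ℂ) →ₗ[ℂ] ((Fin k → ℂ) × (Fin (k - 1) → ℂ)) := LinearMap.prod f1 f2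
  have hlt : Module.finrank ℂ ((Fin k → ℂ) × (Fin (k - 1) → ℂ)) < Module.finrank ℂ (S → ℂ) := by
    rw [Module.finrank_prod, Module.finrank_fin_fun, Module.finrank_fin_fun,
      Module.finrank_fintype_fun_eq_card, Fintype.card_coe]
    have := Finset.card_pos.mpr hS0
    omega
  have hker : LinearMap.ker f ≠ ⊥ := LinearMap.ker_ne_bot_of_finrank_lt hlt
  obtain ⟨b, hb, hb0⟩ := (Submodule.ne_bot_iff _).mp hker
  rw [LinearMap.mem_ker] at hb
  have hb1 : f1 b = 0 := congrArg Prod.fst hb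
  have hb2 : f2 b = 0 := congrArg Prod.snd hb
  let a : (Fin 2 → ℤ) → ℂ := fun x => if h : x ∈ S then b ⟨x, h⟩ else 0
  have hsum : ∀ g : (Fin 2 → ℤ) → ℂ, ∑ ξ ∈ S, a ξ * g ξ = ∑ ξ : S, b ξ * g ξ.1 := by
    intro g
    rw [← Finset.sum_coe_sort]
    refine Finset.sum_congr rfl fun ξ _ => ?_
    simp [a]
  refine ⟨a, ?_, ?_⟩
  · obtain ⟨s, hs⟩ := Function.ne_iff.mp hb0
    exact ⟨s.1, s.2, by simpa [a] using hs⟩
  · apply van_of_moments
    have m0 : ∀ i : ℕ, i < k → ∑ ξ ∈ S, a ξ * ((ξ 0 : ℤ) : ℂ) ^ i = 0 := by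
      intro i hi
      rw [hsum (fun ξ => ((ξ 0 : ℤ) : ℂ) ^ i)]
      have := congrFun hb1 ⟨i, hi⟩
      simp only [f1, LinearMap.pi_apply, LinearMap.sum_apply,
        LinearMap.smul_apply, LinearMap.proj_apply, smul_eq_mul,
        Pi.zero_apply] at this
      rw [← this]
      exact Finset.sum_congr rfl fun ξ _ => mul_comm _ _
    have m1 : ∀ i : ℕ, i < k - 1 →
        ∑ ξ ∈ S, a ξ * (((ξ 0 : ℤ) : ℂ) ^ i * ((ξ 1 : ℤ) : ℂ)) = 0 := by
      intro i hi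
      rw [hsum (fun ξ => ((ξ 0 : ℤ) : ℂ) ^ i * ((ξ 1 : ℤ) : ℂ))]
      have := congrFun hb2 ⟨i, hi⟩
      simp only [f2, LinearMap.pi_apply, LinearMap.sum_apply,
        LinearMap.smul_apply, LinearMap.proj_apply, smul_eq_mul,
        Pi.zero_apply] at this
      rw [← this]
      exact Finset.sum_congr rfl fun ξ _ => mul_comm _ _
    have key : ∀ j i : ℕ, i + j < k →
        ∑ ξ ∈ S, a ξ * (((ξ 0 : ℤ) : ℂ) ^ i * ((ξ 1 : ℤ) : ℂ) ^ j) = 0 := by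
      intro j
      induction j using Nat.strong_induction_on with
      | _ j ih =>
        intro i hij
        rcases Nat.lt_or_ge j 2 with hj | hj
        · rcases Nat.eq_zero_or_pos j with h0 | h0
          · subst h0
            simpa using m0 i (by omega)
          · have : j = 1 := by omega
            subst this
            simpa using m1 i (by omega)
        · obtain ⟨l, rfl⟩ : ∃ l, j = l + 2 := ⟨j - 2, by omega⟩
          have e1 := ih l (by omega) i (by omega)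
          have e2 := ih l (by omega) (i + 2) (by omega)
          have e3 : ∑ ξ ∈ S, a ξ * (((ξ 0 : ℤ) : ℂ) ^ i * ((ξ 1 : ℤ) : ℂ) ^ (l + 2)) =
              (n : ℂ) * (∑ ξ ∈ S, a ξ * (((ξ 0 : ℤ) : ℂ) ^ i * ((ξ 1 : ℤ) : ℂ) ^ l)) -
              ∑ ξ ∈ S, a ξ * (((ξ 0 : ℤ) : ℂ) ^ (i + 2) * ((ξ 1 : ℤ) : ℂ) ^ l) := by
            rw [Finset.mul_sum, ← Finset.sum_sub_distrib]
            refine Finset.sum_congr rfl fun ξ hξ => ?_
            have h := (hS ξ).mp hξ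
            rw [Fin.sum_univ_two] at h
            have h' : ((ξ 0 : ℤ) : ℂ) ^ 2 + ((ξ 1 : ℤ) : ℂ) ^ 2 = (n : ℂ) := by exact_mod_cast h
            rw [← h']
            ring
          rw [e3, e1, e2]
          ring
    intro i j hij
    exact key j i hij

end H912Tw
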